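import Pool.Agent.Lib.MP_122225_al.GroupExample

/-!
# MP_122225_al, Q2: negative answer already for groups

There is a group `S` and a family `X` of three distinct elements generating `S` as a monoid
such that `M_X` has norm exactly one on `ℓ²(S)`, although `S` is not (left) amenable.
-/

open Pool.Agent.Lib.MP_122225_al

namespace Pool.Agent.Results.MP_122225_al.GroupNorm

/-- **Negative answer to Q2 within groups.** -/
theorem result :
    ∃ (S : Type) (_ : Group S) (X : Fin 3 → S),
      Function.Injective X ∧ Submonoid.closure (Set.range X) = ⊤ ∧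
      LeftReversible S ∧ KlaweCondition S ∧ WalkDefined X ∧
      (∃ T : Op S, IsWalkOperator X T ∧ opNorm T = 1) ∧
      ¬ LeftAmenable S := by
  refine ⟨G₀, inferInstance, Y₀, Y₀_injective, Y₀_closure, ?_, ?_, walkDefined Y₀_fibre,
    ⟨walkOp Y₀_fibre, isWalkOperator Y₀_fibre, Y₀_norm⟩, G₀_not_leftAmenable⟩
  · intro a b
    exact ⟨a⁻¹, b⁻¹, by rw [mul_inv_cancel, mul_inv_cancel]⟩
  · intro s x y h
    exact ⟨1, by rw [mul_left_cancel h]⟩

end Pool.Agent.Results.MP_122225_al.GroupNorm
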