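import Pool.Agent.Lib.MP_122225_al.Lamp

/-!
# MP_122225_al, Q1 (and Q2): negative answer

There is a finitely generated, left reversible monoid `S` with the Klawe condition and a finite
generating family `X` (even with pairwise distinct members) such that `M_X` is defined and its
spectral radius is larger than one, although `S` is not left amenable.
-/

open Pool.Agent.Lib.MP_122225_al

namespace Pool.Agent.Results.MP_122225_al.SpectralRadius

/-- **Negative answer to Q1** (and, since the spectral radius is at most the norm, to Q2). -/
theorem result :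
    ∃ (S : Type) (_ : Monoid S) (ι : Type) (_ : Fintype ι) (X : ι → S),
      Function.Injective X ∧ Submonoid.closure (Set.range X) = ⊤ ∧
      LeftReversible S ∧ KlaweCondition S ∧ WalkDefined X ∧
      (∃ (T : Op S) (ρ : ℝ),
        IsWalkOperator X T ∧ HasSpectralRadius T ρ ∧ 1 < ρ ∧ ρ ≤ opNorm T) ∧
      ¬ LeftAmenable S := by
  obtain ⟨ρ, h1, h2, h3⟩ := exists_spectralRadius (walkOp X₀_fibre) (16 / 13) (by norm_num) X₀_norm
  exact ⟨S₀, inferInstance, I₀, inferInstance, X₀, X₀_injective, X₀_closure,
    lamp_leftReversible, lamp_klawe, walkDefined X₀_fibre,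
    ⟨walkOp X₀_fibre, ρ, isWalkOperator X₀_fibre, h1, lt_of_lt_of_le (by norm_num) h2, h3⟩,
    S₀_not_leftAmenable⟩

end Pool.Agent.Results.MP_122225_al.SpectralRadius
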